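import Pool.Agent.H27.G.R_seed8.H370R2.Local
import Pool.Agent.H27.G.R_seed8.Helper240.ZU.A1

set_option autoImplicit false

/-!
# The classical zero free region of the zeta function
-/

open Complex Filter Topology Set MeasureTheory Metric

namespace Pool.Agent.W66

open H370 H370.Loc

/-- `(s-1) ζ(s)` -/
noncomputable def Z1 : ℂ → ℂ := DirichletCharacter.LFunctionTrivChar₁ 1

lemma Z1_diff : Differentiable ℂ Z1 := DirichletCharacter.differentiable_LFunctionTrivChar₁ 1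

lemma Z1_eq {s : ℂ} (hs : s ≠ 1) : Z1 s = (s - 1) * riemannZeta s := by
  unfold Z1
  simp only [DirichletCharacter.LFunctionTrivChar₁]
  rw [Function.update_of_ne hs]
  simp [DirichletCharacter.LFunctionTrivChar]

lemma Z1_one : Z1 1 = 1 := by
  unfold Z1
  simp [DirichletCharacter.LFunctionTrivChar₁]

lemma Z1_ne_zero {s : ℂ} (hs : 1 ≤ s.re) : Z1 s ≠ 0 := by
  by_cases h : s = 1
  · rw [h, Z1_one]; exact one_ne_zero
  · rw [Z1_eq h]
    exact mul_ne_zero (sub_ne_zero.mpr h) (riemannZeta_ne_zero_of_one_le_re hs)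

lemma J_bound {A : ℝ → ℂ} {K : ℝ} (hA : ∀ u, ‖A u‖ ≤ K) {s : ℂ} (hs : 0 < s.re) :
    ‖∫ u in Ioi (1 : ℝ), A u * (u : ℂ) ^ (-s - 1)‖ ≤ K / s.re := by
  have h1 : ∫ u in Ioi (1 : ℝ), K * u ^ (-s.re - 1) = K / s.re := by
    rw [integral_const_mul, integral_Ioi_rpow_of_lt (by linarith) zero_lt_one, Real.one_rpow]
    have : s.re ≠ 0 := hs.ne'
    rw [show -s.re - 1 + 1 = -s.re by ring]
    field_simp
  rw [← h1]
  refine norm_integral_le_of_norm_le ?_ ?_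
  · exact (integrableOn_Ioi_rpow_of_lt (by linarith) zero_lt_one).const_mul K
  · refine (ae_restrict_iff' measurableSet_Ioi).mpr (Filter.Eventually.of_forall fun u hu => ?_)
    have hu0 : (0 : ℝ) < u := lt_trans one_pos hu
    rw [norm_mul, norm_cpow_eq_rpow_re_of_pos hu0]
    have : (-s - 1).re = -s.re - 1 := by simp
    rw [this]
    exact mul_le_mul_of_nonneg_right (hA u) (by positivity)

/-- growth -/
lemma Z1_growth {s : ℂ} (hs : 1 / 4 ≤ s.re) : ‖Z1 s‖ ≤ ‖s‖ + 4 * (‖s - 1‖ * ‖s‖) := by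
  by_cases h : s = 1
  · rw [h, Z1_one]
    simp
  · have hs0 : 0 < s.re := by linarith
    have hA : ∀ u : ℝ, ‖((Int.fract u : ℝ) : ℂ)‖ ≤ 1 := by
      intro u
      rw [Complex.norm_real, Real.norm_eq_abs, Int.abs_fract]
      exact (Int.fract_lt_one u).le
    have h4 := J_bound hA hs0
    have h5 : (1 : ℝ) / s.re ≤ 4 := by
      rw [div_le_iff₀ hs0]
      linarith
    rw [Z1_eq h, ZU.J_a1.zf_one s hs0 h]
    have h1 : s - 1 ≠ 0 := sub_ne_zero.mpr h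
    have e : (s - 1) * (1 + 1 / (s - 1) -
        s * ∫ u in Ioi (1 : ℝ), ((Int.fract u : ℝ) : ℂ) * (u : ℂ) ^ (-s - 1)) =
        s - (s - 1) * (s * ∫ u in Ioi (1 : ℝ), ((Int.fract u : ℝ) : ℂ) * (u : ℂ) ^ (-s - 1)) := by
      field_simp
      ring
    rw [e]
    refine (norm_sub_le _ _).trans ?_
    rw [norm_mul, norm_mul]
    have h6 : ‖s - 1‖ * (‖s‖ * ‖∫ u in Ioi (1 : ℝ), ((Int.fract u : ℝ) : ℂ) * (u : ℂ) ^ (-s - 1)‖)
        ≤ ‖s - 1‖ * (‖s‖ * 4) := by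
      gcongr
      exact h4.trans h5
    linarith

/-- `log (|t| + 3)` -/
noncomputable def ell (t : ℝ) : ℝ := Real.log (|t| + 3)

lemma one_le_ell (t : ℝ) : 1 ≤ ell t := by
  unfold ell
  rw [Real.le_log_iff_exp_le (by positivity)]
  have := Real.exp_one_lt_d9
  have := abs_nonneg t
  linarith

lemma ell_mono {s t : ℝ} (h : |s| ≤ |t|) : ell s ≤ ell t :=
  Real.log_le_log (by positivity) (by linarith)

lemma ell_near {s t : ℝ} (h : |s - t| ≤ 2) : ell s ≤ 2 * ell t := by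
  unfold ell
  have h1 : |s| ≤ |t| + 2 := by
    have := abs_sub_abs_le_abs_sub s t
    linarith
  have ht := abs_nonneg t
  have h2 : Real.log (|s| + 3) ≤ Real.log ((|t| + 3) ^ 2) :=
    Real.log_le_log (by positivity) (by nlinarith)
  rw [Real.log_pow] at h2
  exact_mod_cast h2

/-- lower bound at `2 + it` -/
lemma Z1_low : ∃ c : ℝ, 0 < c ∧ c ≤ 1 ∧ ∀ t : ℝ, c ≤ ‖Z1 ⟨2, t⟩‖ := by
  have hsum : Summable (fun n : ℕ => 1 / (n : ℝ) ^ 2) :=
    Real.summable_one_div_nat_pow.mpr (by norm_num)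
  have hZ : 1 ≤ ∑' n : ℕ, 1 / (n : ℝ) ^ 2 := by
    have := hsum.le_tsum 1 (fun n _ => by positivity)
    simpa using this
  set Z := ∑' n : ℕ, 1 / (n : ℝ) ^ 2 with hZd
  have hZ0 : 0 < Z := by linarith
  refine ⟨1 / Z, by positivity, by rw [div_le_one hZ0]; exact hZ, fun t => ?_⟩
  have hre : (1 : ℝ) < (⟨2, t⟩ : ℂ).re := by norm_num
  have hne : (⟨2, t⟩ : ℂ) ≠ 1 := by
    intro h
    rw [h] at hre
    norm_num at hre
  rw [Z1_eq hne, norm_mul]
  have h0 : 1 ≤ ‖(⟨2, t⟩ : ℂ) - 1‖ := by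
    refine le_trans ?_ (Complex.abs_re_le_norm _)
    simp only [sub_re, one_re]
    norm_num
  have h1 := ArithmeticFunction.LSeries_zeta_mul_Lseries_moebius hre
  have h2 : ‖LSeries (fun n : ℕ => (ArithmeticFunction.moebius n : ℂ)) (⟨2, t⟩ : ℂ)‖ ≤ Z := by
    unfold LSeries
    refine tsum_of_norm_bounded hsum.hasSum fun n => ?_
    rcases eq_or_ne n 0 with rfl | hn
    · simp
    · rw [LSeries.term_of_ne_zero hn, norm_div, norm_natCast_cpow_of_pos (Nat.pos_of_ne_zero hn)]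
      rw [show ((2 : ℝ) : ℝ) = ((2 : ℕ) : ℝ) by norm_num, Real.rpow_natCast]
      apply div_le_div_of_nonneg_right _ (by positivity)
      have := ArithmeticFunction.abs_moebius_le_one (n := n)
      rw [Complex.norm_intCast]
      exact_mod_cast this
  have h3 : ‖riemannZeta ⟨2, t⟩‖ *
      ‖LSeries (fun n : ℕ => (ArithmeticFunction.moebius n : ℂ)) (⟨2, t⟩ : ℂ)‖ = 1 := by
    rw [← norm_mul, ← ArithmeticFunction.LSeries_zeta_eq_riemannZeta hre, h1, norm_one]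
  have h4 : 1 / Z ≤ ‖riemannZeta ⟨2, t⟩‖ := by
    rw [div_le_iff₀ hZ0]
    calc (1 : ℝ) = _ := h3.symm
      _ ≤ _ := mul_le_mul_of_nonneg_left h2 (norm_nonneg _)
  calc 1 / Z ≤ ‖riemannZeta ⟨2, t⟩‖ := h4
    _ = 1 * ‖riemannZeta ⟨2, t⟩‖ := (one_mul _).symm
    _ ≤ _ := mul_le_mul_of_nonneg_right h0 (norm_nonneg _)

/-- bounds in the ball of radius `7/4` about `2 + it` -/
lemma Z1_ball : ∃ K : ℝ, 0 < K ∧ ∀ t : ℝ, ∃ M : ℝ, 1 ≤ M ∧
    (∀ z ∈ closedBall (⟨2, t⟩ : ℂ) (7 / 4), ‖Z1 z‖ ≤ M) ∧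
    0 ≤ Real.log (M / ‖Z1 ⟨2, t⟩‖) ∧ Real.log (M / ‖Z1 ⟨2, t⟩‖) ≤ K * ell t := by
  obtain ⟨c, hc, hc1, hl⟩ := Z1_low
  refine ⟨Real.log (16 / c) + 2, ?_, fun t => ⟨16 * (|t| + 3) ^ 2, ?_, ?_, ?_⟩⟩
  · have : 0 ≤ Real.log (16 / c) := Real.log_nonneg (by rw [le_div_iff₀ hc]; linarith)
    linarith
  · have := abs_nonneg t
    nlinarith
  · intro z hz
    rw [mem_closedBall, dist_eq_norm] at hz
    have h1 := (Complex.abs_re_le_norm (z - ⟨2, t⟩)).trans hz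
    simp only [sub_re] at h1
    rw [abs_le] at h1
    have hre : 1 / 4 ≤ z.re := by linarith [h1.1]
    refine (Z1_growth hre).trans ?_
    have h2 : ‖(⟨2, t⟩ : ℂ)‖ ≤ 2 + |t| := by
      refine (Complex.norm_le_abs_re_add_abs_im _).trans ?_
      simp
    have h3 : ‖(⟨2, t⟩ : ℂ) - 1‖ ≤ 1 + |t| := by
      refine (Complex.norm_le_abs_re_add_abs_im _).trans ?_
      simp only [sub_re, one_re, sub_im, one_im, sub_zero]
      norm_num
    have h4 : ‖z‖ ≤ |t| + 15 / 4 := by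
      calc ‖z‖ = ‖(z - ⟨2, t⟩) + ⟨2, t⟩‖ := by ring_nf
        _ ≤ ‖z - ⟨2, t⟩‖ + ‖(⟨2, t⟩ : ℂ)‖ := norm_add_le _ _
        _ ≤ _ := by linarith
    have h5 : ‖z - 1‖ ≤ |t| + 11 / 4 := by
      calc ‖z - 1‖ = ‖(z - ⟨2, t⟩) + (⟨2, t⟩ - 1)‖ := by ring_nf
        _ ≤ ‖z - ⟨2, t⟩‖ + ‖(⟨2, t⟩ : ℂ) - 1‖ := norm_add_le _ _
        _ ≤ _ := by linarith
    have ht := abs_nonneg t
    have h6 : ‖z - 1‖ * ‖z‖ ≤ (|t| + 11 / 4) * (|t| + 15 / 4) :=
      mul_le_mul h5 h4 (norm_nonneg _) (by linarith)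
    nlinarith
  · have ht := abs_nonneg t
    have h0 := hl t
    have hpos : 0 < ‖Z1 ⟨2, t⟩‖ := by linarith
    have hb : ‖Z1 ⟨2, t⟩‖ ≤ 16 * (|t| + 3) ^ 2 := by
      have h2 : ‖(⟨2, t⟩ : ℂ)‖ ≤ 2 + |t| := by
        refine (Complex.norm_le_abs_re_add_abs_im _).trans ?_
        simp
      have h3 : ‖(⟨2, t⟩ : ℂ) - 1‖ ≤ 1 + |t| := by
        refine (Complex.norm_le_abs_re_add_abs_im _).trans ?_
        simp only [sub_re, one_re, sub_im, one_im, sub_zero]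
        norm_num
      refine (Z1_growth (by norm_num)).trans ?_
      have h6 : ‖(⟨2, t⟩ : ℂ) - 1‖ * ‖(⟨2, t⟩ : ℂ)‖ ≤ (1 + |t|) * (2 + |t|) :=
        mul_le_mul h3 h2 (norm_nonneg _) (by linarith)
      nlinarith
    constructor
    · exact Real.log_nonneg (by rw [le_div_iff₀ hpos]; linarith)
    · have h1 : Real.log (16 * (|t| + 3) ^ 2 / ‖Z1 ⟨2, t⟩‖) ≤
          Real.log ((16 / c) * (|t| + 3) ^ 2) := by
        apply Real.log_le_log (by positivity)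
        rw [div_mul_eq_mul_div]
        exact div_le_div_of_nonneg_left (by positivity) hc h0
      rw [Real.log_mul (by positivity) (by positivity), Real.log_pow] at h1
      have h2 : 0 ≤ Real.log (16 / c) := Real.log_nonneg (by rw [le_div_iff₀ hc]; linarith)
      have h3 := one_le_ell t
      unfold ell at h3 ⊢
      push_cast at h1
      nlinarith

end Pool.Agent.W66
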